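import Pool.Agent.Lib_helper15.STB.F.Bal

/-!
# Steinhaus' inequality between the sphericity of a convex body and the circularity of its plane
sections, up to the factor `S / (4 π R²)`, where `R` is the radius of a ball containing the body
-/

namespace Pool.Agent.Results.MP_34631e_gt.CircumscribedBall

open MeasureTheory Pool.Agent.Lib_helper15.STE

/-- A convex body `K` in a ball of radius `R` satisfies `V / S² ≥ (inf A / L²) / (3 R)`, with
equality only if `K` is the ball. -/
theorem result (K : Set E3) (hc : Convex ℝ K) (hk : IsCompact K) (hi : (interior K).Nonempty)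
    (c : E3) (R : ℝ) (hR : K ⊆ Metric.closedBall c R) :
    sInf (iot K) * (bd K).toReal ^ 2 ≤ 3 * R * (volume K).toReal ∧
    (sInf (iot K) * (bd K).toReal ^ 2 = 3 * R * (volume K).toReal →
      K = Metric.closedBall c R) :=
  STB.bal_main K ⟨hc, hk, hi⟩ c R hR

end Pool.Agent.Results.MP_34631e_gt.CircumscribedBall
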