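import Pool.Agent.Lib_helper15.STB.F.Opn2

/-!
# Steinhaus' inequality between the sphericity of a convex body and the circularity of its plane
sections, for all convex bodies near an ellipsoid or near a body of revolution
-/

namespace Pool.Agent.Results.MP_34631e_gt.OpenNeighbourhood

open MeasureTheory Pool.Agent.Lib_helper15.STE

/-- `K` is a (solid) ellipsoid, with centre `c` and with the semiaxes `a i > 0` in the directions
of an orthonormal basis `v`. -/
def IsEllipsoid (K : Set E3) : Prop :=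
  ∃ (c : E3) (v : OrthonormalBasis (Fin 3) ℝ E3) (a : Fin 3 → ℝ), (∀ i, 0 < a i) ∧
    K = {x | ∑ i, (inner ℝ (v i) (x - c) / a i) ^ 2 ≤ 1}

/-- `K` is a convex body of revolution about the line through some point `c` with some direction
`v`: with a point `x` it contains every point `y` of the same height along `v` and the same distance
from `c`. -/
def IsRevolution (K : Set E3) : Prop :=
  Convex ℝ K ∧ IsCompact K ∧ (interior K).Nonempty ∧ ∃ c v : E3, v ≠ 0 ∧
    ∀ x y : E3, inner ℝ v (x - c) = inner ℝ v (y - c) → ‖x - c‖ = ‖y - c‖ → x ∈ K → y ∈ K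

/-- There is `η > 0` such that every convex body `K` in `ℝ³` that lies between an ellipsoid, or a
convex body of revolution, `K₀` and a homothetic copy of `K₀` with the ratio `1 + η` satisfies
Steinhaus' inequality `V² / S³ ≥ (4π/9) (inf A / L²)²`, with equality only if `K` is a ball. -/
theorem result : ∃ η : ℝ, 0 < η ∧ ∀ K₀ : Set E3, IsEllipsoid K₀ ∨ IsRevolution K₀ →
    ∀ K : Set E3, Convex ℝ K → IsCompact K →
    ∀ c : E3, K₀ ⊆ K → K ⊆ (fun x => c + (1 + η) • (x - c)) '' K₀ →
      4 * Real.pi / 9 * sInf (iot K) ^ 2 ≤ (volume K).toReal ^ 2 / (bd K).toReal ^ 3 ∧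
      (4 * Real.pi / 9 * sInf (iot K) ^ 2 = (volume K).toReal ^ 2 / (bd K).toReal ^ 3 →
        ∃ (x : E3) (r : ℝ), 0 < r ∧ K = Metric.closedBall x r) := by
  obtain ⟨η, hη, H⟩ := STB.opn_main
  refine ⟨η, hη, fun K₀ h K hc hk c h1 h2 => H K₀ K c ?_ hc hk h1 h2⟩
  rcases h with ⟨x, v, a, ha, h⟩ | ⟨h3, h4, h5, h6⟩
  · exact Or.inl ⟨x, v, a, ha, h⟩
  · exact Or.inr ⟨⟨h3, h4, h5⟩, h6⟩

end Pool.Agent.Results.MP_34631e_gt.OpenNeighbourhood
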