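import Pool.Agent.Lib_helper15.STB.F.Cpt

/-!
# Steinhaus' inequality between the sphericity of a convex body and the circularity of its plane
sections, when the circularity is nearly maximal or nearly zero
-/

namespace Pool.Agent.Results.MP_34631e_gt.TwoEnds

open MeasureTheory Pool.Agent.Lib_helper15.STE

/-- There is `η > 0` such that every convex body `K` in `ℝ³` for which the infimum `m` of `A / L²`
over the plane sections is at most `η` or at least `(1 - η) / (4π)` satisfies Steinhaus' inequality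
`V² / S³ ≥ (4π/9) m²`, with equality only if `K` is a ball. -/
theorem result : ∃ η : ℝ, 0 < η ∧ ∀ K : Set E3, Convex ℝ K → IsCompact K →
    (interior K).Nonempty →
      sInf (iot K) ≤ η ∨ (1 - η) / (4 * Real.pi) ≤ sInf (iot K) →
      4 * Real.pi / 9 * sInf (iot K) ^ 2 ≤ (volume K).toReal ^ 2 / (bd K).toReal ^ 3 ∧
      (4 * Real.pi / 9 * sInf (iot K) ^ 2 = (volume K).toReal ^ 2 / (bd K).toReal ^ 3 →
        ∃ (x : E3) (r : ℝ), 0 < r ∧ K = Metric.closedBall x r) := by
  obtain ⟨η1, h1, H1⟩ := STB.cpt_min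
  obtain ⟨η2, h2, H2⟩ := STB.cpt_max
  have hpi := Real.pi_pos
  refine ⟨min η1 η2, lt_min h1 h2, fun K hc hk hi h => ?_⟩
  have hK : STB.CB K := ⟨hc, hk, hi⟩
  rcases h with h | h
  · have h3 : 4 * Real.pi / 9 * sInf (iot K) ^ 2 < (volume K).toReal ^ 2 / (bd K).toReal ^ 3 :=
      H1 K hK (h.trans (min_le_left _ _))
    exact ⟨h3.le, fun he => absurd he h3.ne⟩
  · refine H2 K hK (le_trans ?_ h)
    have h3 := min_le_right η1 η2
    gcongr

end Pool.Agent.Results.MP_34631e_gt.TwoEnds
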