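import Pool.Agent.Lib_helper15.STB.F.Uni

/-!
# A universal constant in Steinhaus' inequality between the sphericity of a convex body and the
circularity of its plane sections
-/

namespace Pool.Agent.Results.MP_34631e_gt.UniversalConstant

open MeasureTheory Pool.Agent.Lib_helper15.STE

/-- Every convex body `K` in `ℝ³` satisfies `V² / S³ ≥ (π/4) (inf A / L²)²`. -/
theorem result (K : Set E3) (hc : Convex ℝ K) (hk : IsCompact K) (hi : (interior K).Nonempty) :
    Real.pi / 4 * (sInf (iot K)) ^ 2 ≤ (volume K).toReal ^ 2 / (bd K).toReal ^ 3 :=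
  STB.uni_main K ⟨hc, hk, hi⟩

end Pool.Agent.Results.MP_34631e_gt.UniversalConstant
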